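import Mathlib
import Pool.Agent.Lib.MP_af453c_al.Defs
import Pool.Agent.Lib.MP_af453c_al.Proof

set_option autoImplicit false

namespace Pool.Agent.Results.MP_af453c_al.SuperRigidity

open Pool.Agent.MPaf453c

universe u v

/-- **Super-rigidity of the random monster group with respect to `Out(A_Λ)`**, for every finite
simple graph `Λ`. The graphs `Ω n` are finite, connected and `d`-regular with `d ≥ 3`; no
assumption on expansion, girth or diameter is needed. -/
theorem result {V : ℕ → Type u} [∀ n, Fintype (V n)] (Ω : ∀ n, SimpleGraph (V n))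
    [∀ n, DecidableRel (Ω n).Adj] (d k j : ℕ) (hd : 3 ≤ d) (hj : 1 ≤ j)
    (hconn : ∀ n, (Ω n).Connected)
    (hreg : ∀ n, (Ω n).IsRegularOfDegree d) {W : Type v} [Finite W] (Λ : SimpleGraph W) :
    SuperRigid Ω k j (Out (RAAG Λ)) := by
  have := countable_out Λ
  exact superRigid_of_countable Ω k j hj
    (fun n => not_acyclic (Ω n) d (by omega) (hconn n) (hreg n)) _

end Pool.Agent.Results.MP_af453c_al.SuperRigidity
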